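import Pool.Agent.P.MP_e4ac67_pr.Defs

/-! Triangulations of the Euclidean plane, as topological objects. -/

namespace Pool.Agent.P.MP_e4ac67_pr

/-- The geometric realization of a set `F` of faces: the points are given by barycentric
coordinates, nonnegative, of sum one, supported on one face. -/
def realization {V : Type} (F : Set (Finset V)) : Set (V → ℝ) :=
  {x | ∃ f ∈ F, (∀ v, 0 ≤ x v) ∧ (∀ v, v ∉ f → x v = 0) ∧ ∑ v ∈ f, x v = 1}

/-- A plane triangulation: an infinite, connected, locally finite graph whose edges are the sides
of a family of triangles, and a homeomorphism from the union of these triangles (glued along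
common vertices and edges) onto the plane. -/
structure EmbTri (V : Type) where
  G : SimpleGraph V
  faces : Set (Finset V)
  inf : Infinite V
  conn : G.Connected
  locFin : ∀ v, (G.neighborSet v).Finite
  card_face : ∀ f ∈ faces, f.card = 3
  adj_iff : ∀ v w, G.Adj v w ↔ v ≠ w ∧ ∃ f ∈ faces, v ∈ f ∧ w ∈ f
  emb : realization faces ≃ₜ EuclideanSpace ℝ (Fin 2)

end Pool.Agent.P.MP_e4ac67_pr
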