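import Mathlib

/-! Continuous logarithms, and sections of locally constant cocycles over the plane. -/

namespace Pool.Agent.P.MP_e4ac67_pr.Emb

open Set Metric Topology

/-- a nonvanishing function on a star-convex set has a logarithm -/
theorem log_star {E : Type} [AddCommGroup E] [Module ℝ E] [TopologicalSpace E]
    [IsTopologicalAddGroup E] [ContinuousSMul ℝ E] {S : Set E} {p : E} (hp : p ∈ S)
    (hS : StarConvex ℝ p S) {g : E → ℂ} (hg : ContinuousOn g S) (h0 : ∀ x ∈ S, g x ≠ 0) :
    ∃ L : E → ℂ, ContinuousOn L S ∧ ∀ x ∈ S, Complex.exp (L x) = g x := by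
  classical
  have hm : ∀ x : unitInterval × S, (1 - (x.1 : ℝ)) • p + (x.1 : ℝ) • (x.2 : E) ∈ S := fun x =>
    hS x.2.2 (by linarith [x.1.2.2]) x.1.2.1 (by ring)
  let H : C(unitInterval × S, {z : ℂ // z ≠ 0}) :=
    ⟨fun x => ⟨g ((1 - (x.1 : ℝ)) • p + (x.1 : ℝ) • (x.2 : E)), h0 _ (hm x)⟩,
      Continuous.subtype_mk (hg.comp_continuous (by fun_prop) hm) _⟩
  have H0 : ∀ z, H (0, z) = (fun w : ℂ => (⟨_, w.exp_ne_zero⟩ : {z : ℂ // z ≠ 0}))
      ((ContinuousMap.const S (Complex.log (g p))) z) := fun z => Subtype.ext (by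
    simp [H, Complex.exp_log (h0 p hp)])
  let G := Complex.isCoveringMap_exp.liftHomotopy H _ H0
  have hG : ∀ x, Complex.exp (G x) = (H x : ℂ) := fun x =>
    congrArg Subtype.val (congrFun (Complex.isCoveringMap_exp.liftHomotopy_lifts H _ H0) x)
  refine ⟨fun z => if h : z ∈ S then G (1, ⟨z, h⟩) else 0, ?_, fun z hz => ?_⟩
  · rw [continuousOn_iff_continuous_domRestrict]
    have : Continuous fun z : S => G (1, z) := by fun_prop
    refine this.congr fun z => ?_
    simp only [domRestrict_apply, dif_pos z.2]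
  · simp only [dif_pos hz, hG]
    simp [H]

/-- two logarithms differ by a constant on a preconnected set -/
theorem log_const {E : Type} [TopologicalSpace E] {S : Set E} (hS : IsPreconnected S)
    {L M : E → ℂ} (hL : ContinuousOn L S) (hM : ContinuousOn M S)
    (h : ∀ x ∈ S, Complex.exp (L x) = Complex.exp (M x)) {x y : E} (hx : x ∈ S) (hy : y ∈ S) :
    L x - M x = L y - M y := by
  have := isPreconnected_iff_preconnectedSpace.1 hS
  have hc : Continuous fun z : S => L z - M z :=
    (continuousOn_iff_continuous_domRestrict.1 (hL.sub hM))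
  exact Complex.isCoveringMap_exp.const_of_comp (g := fun z : S => L z - M z) hc
    (fun a b => Subtype.ext (by
      simp only [Complex.exp_sub, h _ a.2, h _ b.2, div_self (Complex.exp_ne_zero _)]))
    ⟨x, hx⟩ ⟨y, hy⟩

/-- `z - p` has no logarithm on a circle around `p` -/
theorem no_log {p : ℂ} {r : ℝ} (hr : 0 < r) {L : ℂ → ℂ} (hL : ContinuousOn L (sphere p r))
    (h : ∀ z ∈ sphere p r, Complex.exp (L z) = z - p) : False := by
  have hm : ∀ t : ℝ, circleMap p r t ∈ sphere p r := fun t => circleMap_mem_sphere p hr.le t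
  have h1 := log_const (E := ℝ) isPreconnected_univ (L := fun t => L (circleMap p r t))
    (M := fun t => Complex.log r + t * Complex.I)
    (hL.comp_continuous (continuous_circleMap p r) hm).continuousOn (by fun_prop)
    (fun t _ => by
      rw [h _ (hm t), Complex.exp_add, Complex.exp_log (by exact_mod_cast hr.ne')]
      simp [circleMap]) (mem_univ 0) (mem_univ (2 * Real.pi))
  have h2 : circleMap p r (2 * Real.pi) = circleMap p r 0 := by
    rw [← periodic_circleMap p r 0, zero_add]
  simp only [h2] at h1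
  have h3 : (2 * Real.pi * Complex.I : ℂ) = 0 := by
    push_cast at h1
    linear_combination h1
  exact Complex.two_pi_I_ne_zero h3

theorem punct_ball (p : ℂ) (r : ℝ) : IsPreconnected (ball p r \ {p}) := by
  have : ball p r \ {p} = (fun x : ℝ × ℝ => circleMap p x.1 x.2) '' (Ioo 0 r ×ˢ univ) := by
    ext z
    constructor
    · rintro ⟨h1, h2⟩
      refine ⟨(‖z - p‖, Complex.arg (z - p)), ⟨⟨norm_pos_iff.2 (sub_ne_zero.2 h2), ?_⟩, trivial⟩, ?_⟩
      · simpa [dist_eq_norm] using h1
      · simp [circleMap]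
    · rintro ⟨⟨s, t⟩, ⟨⟨h1, h2⟩, -⟩, rfl⟩
      have := circleMap_mem_sphere p h1.le t
      rw [mem_sphere] at this
      refine ⟨by rw [mem_ball, this]; exact h2, fun e => ?_⟩
      have e' : circleMap p s t = p := e
      change dist (circleMap p s t) p = s at this
      rw [e', dist_self] at this
      exact h1.ne this
  rw [this]
  refine (isPreconnected_Ioo.prod isPreconnected_univ).image _ (Continuous.continuousOn ?_)
  unfold circleMap
  fun_prop

/-- a locally constant cocycle on an open cover of the plane by connected sets is trivial -/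
theorem sect0 {V F : Type} (U : V → Set ℂ) (ho : ∀ v, IsOpen (U v))
    (hc : ∀ v, IsPreconnected (U v)) (hcov : ∀ z, ∃ v, z ∈ U v) (φ : V → V → F → F)
    (h1 : ∀ v, (U v).Nonempty → ∀ s, φ v v s = s)
    (h2 : ∀ u v w, (U u ∩ U v ∩ U w).Nonempty → ∀ s, φ v w (φ u v s) = φ u w s)
    (o : V) (s0 : F) (hne : (U o).Nonempty) :
    ∃ σ : V → F, σ o = s0 ∧ ∀ u v, (U u ∩ U v).Nonempty → φ u v (σ u) = σ v := by
  classical
  let _ : TopologicalSpace F := ⊥
  have : DiscreteTopology F := ⟨rfl⟩
  choose ix hix using hcov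
  let Z : FiberBundleCore V ℂ F :=
    { baseSet := U
      isOpen_baseSet := ho
      indexAt := ix
      mem_baseSet_at := hix
      coordChange := fun i j _ s => φ i j s
      coordChange_self := fun i x hx s => h1 i ⟨x, hx⟩ s
      continuousOn_coordChange := fun i j =>
        (continuous_of_discreteTopology.comp continuous_snd).continuousOn
      coordChange_comp := fun i j k x hx s => h2 i j k ⟨x, hx⟩ s }
  have cov : IsCoveringMap Z.proj :=
    IsCoveringMap.mk _ (fun _ => F) (fun x => Z.localTriv (ix x)) hix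
  obtain ⟨z0, hz0⟩ := hne
  obtain ⟨s, ⟨hs0, hs⟩, -⟩ := cov.existsUnique_continuousMap_lifts (ContinuousMap.id ℂ) z0
    (⟨z0, φ o (ix z0) s0⟩ : Z.TotalSpace) rfl
  have hs1 : ∀ z, (s z).1 = z := fun z => congrFun hs z
  let τ : V → ℂ → F := fun v z => φ (ix (s z).1) v (s z).2
  have hτ : ∀ v, ∀ x ∈ U v, ∀ y ∈ U v, τ v x = τ v y := fun v x hx y hy => by
    refine (hc v).constant (f := τ v) ?_ hx hy
    have : ContinuousOn (fun z => (Z.localTriv v (s z)).2) (U v) :=
      continuous_snd.comp_continuousOn ((Z.localTriv v).continuousOn.comp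
        s.continuous.continuousOn fun z hz => by
          rw [FiberBundleCore.mem_localTriv_source, hs1]; exact hz)
    exact this
  refine ⟨fun v => if h : (U v).Nonempty then τ v h.some else s0, ?_, ?_⟩
  · have h : (U o).Nonempty := ⟨z0, hz0⟩
    simp only [dif_pos h]
    rw [hτ o _ h.some_mem _ hz0]
    have : τ o z0 = φ (ix z0) o (φ o (ix z0) s0) :=
      congrArg (fun e : Z.TotalSpace => φ (ix e.1) o e.2) hs0
    rw [this, h2 o (ix z0) o ⟨z0, ⟨hz0, hix _⟩, hz0⟩, h1 o h]
  · rintro u v ⟨z, hu, hv⟩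
    have h : (U u).Nonempty := ⟨z, hu⟩
    have h' : (U v).Nonempty := ⟨z, hv⟩
    simp only [dif_pos h, dif_pos h']
    rw [hτ u _ h.some_mem _ hu, hτ v _ h'.some_mem _ hv]
    simp only [τ]
    refine h2 _ u v ⟨z, ⟨?_, hu⟩, hv⟩ _
    rw [hs1]; exact hix z

/-- the same with fibres depending on the index -/
theorem sect {V : Type} (S : V → Type) (U : V → Set ℂ) (ho : ∀ v, IsOpen (U v))
    (hc : ∀ v, IsPreconnected (U v)) (hcov : ∀ z, ∃ v, z ∈ U v) (φ : ∀ u v, S u → S v)
    (h1 : ∀ v s, φ v v s = s)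
    (h2 : ∀ u v w, (U u ∩ U v ∩ U w).Nonempty → ∀ s, φ v w (φ u v s) = φ u w s)
    (o : V) (s0 : S o) (hne : (U o).Nonempty)
    (hcon : ∀ v, Relation.ReflTransGen (fun a b => (U a ∩ U b).Nonempty) o v) :
    ∃ σ : ∀ v, S v, σ o = s0 ∧ ∀ u v, (U u ∩ U v).Nonempty → φ u v (σ u) = σ v := by
  have he : ∀ v, Nonempty (S o ≃ S v) := fun v => by
    induction hcon v with
    | refl => exact ⟨Equiv.refl _⟩
    | @tail a b _ hab ih =>
      obtain ⟨e⟩ := ih
      obtain ⟨z, ha, hb⟩ := hab
      exact ⟨e.trans ⟨φ a b, φ b a, fun s => by rw [h2 a b a ⟨z, ⟨ha, hb⟩, ha⟩, h1],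
        fun s => by rw [h2 b a b ⟨z, ⟨hb, ha⟩, hb⟩, h1]⟩⟩
  let e : ∀ v, S o ≃ S v := fun v => (he v).some
  obtain ⟨σ, k1, k2⟩ := sect0 U ho hc hcov (fun u v s => (e v).symm (φ u v (e u s)))
    (fun v _ s => by simp [h1]) (fun u v w h s => by simp [h2 u v w h]) o ((e o).symm s0) hne
  refine ⟨fun v => e v (σ v), by simp [k1], fun u v h => ?_⟩
  simp only [← k2 u v h, Equiv.apply_symm_apply]

end Pool.Agent.P.MP_e4ac67_pr.Emb
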