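import Pool.Agent.P.MP_e4ac67_pr.Emb.Two

/-! Orientation and combinatorial simple connectivity of a triangulation of the plane. -/

namespace Pool.Agent.P.MP_e4ac67_pr

open Set Metric Topology Emb

namespace EmbTri

variable {V : Type} {T : EmbTri V}

theorem sx_adj {u v w : V} (h : T.Sx u v w) (e : u ≠ v) : T.G.Adj u v := by
  obtain ⟨f, hf, k1, k2, -⟩ := h
  exact (T.adj_iff u v).2 ⟨e, f, hf, k1, k2⟩

theorem dl_mem (v : V) : dl v ∈ realization T.faces := by
  have := T.inf
  obtain ⟨w, hw⟩ := T.conn.preconnected.exists_adj_of_nontrivial v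
  obtain ⟨c, hc⟩ := exists_tri hw
  exact page_sub hc (dl1 hc)

/-- transport along edges, flat on faces, has a global section -/
theorem sectT (S : V → Type) (φ : ∀ u v, T.G.Adj u v → S u → S v)
    (hb : ∀ u v (h : T.G.Adj u v) s, φ v u h.symm (φ u v h s) = s)
    (ht : ∀ u v w (h : T.Tri u v w) s, φ v w h.rot.adj (φ u v h.adj s) = φ u w h.s23.adj s)
    (o : V) (s0 : S o) : ∃ σ : ∀ v, S v, σ o = s0 ∧ ∀ u v h, φ u v h (σ u) = σ v := by
  classical
  obtain ⟨β, H, h⟩ := T.exists_co
  have hr : ∀ v, Relation.ReflTransGen T.G.Adj o v := fun v =>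
    (SimpleGraph.reachable_iff_reflTransGen o v).1 (T.conn.preconnected o v)
  have hne : ∀ v, Nonempty (S v) := fun v => by
    induction hr v with
    | refl => exact ⟨s0⟩
    | tail _ k ih => exact ⟨φ _ _ k ih.some⟩
  let ψ : ∀ u v, S u → S v := fun u v s =>
    if k : T.G.Adj u v then φ u v k s else if k : u = v then k ▸ s else (hne v).some
  have ψ1 : ∀ v s, ψ v v s = s := fun v s => by simp [ψ]
  have ψ2 : ∀ u v (k : T.G.Adj u v) s, ψ u v s = φ u v k s := fun u v k s => by simp [ψ, k]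
  have hadj : ∀ u v, T.G.Adj u v → ({z | 0 < β z u} ∩ {z | 0 < β z v}).Nonempty := fun u v k => by
    obtain ⟨c, hc⟩ := exists_tri k
    exact ⟨H (mid u v), by simp [h.r _ (page_sub hc (mid_mem hc)), mid1 k.ne, mid2 k.ne]⟩
  obtain ⟨σ, k1, k2⟩ := sect S (fun v => {z | 0 < β z v})
    (fun v => isOpen_lt continuous_const ((continuous_apply v).comp h.cβ))
    (fun v => by
      have e : {z | 0 < β z v} = H '' {x | x ∈ realization T.faces ∧ 0 < x v} := by
        ext z
        exact ⟨fun hz => ⟨β z, ⟨h.mem z, hz⟩, h.l z⟩, by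
          rintro ⟨x, hx, rfl⟩
          simpa [h.r x hx.1] using hx.2⟩
      rw [e]
      refine IsPreconnected.image ?_ _ (h.cH.mono fun x hx => hx.1)
      refine (StarConvex.isPathConnected (a := dl v) ?_
        (show _ ∧ _ from ⟨dl_mem v, by simp⟩)).isConnected.isPreconnected
      rintro x ⟨⟨f, hf, k1, k2, k3⟩, k4⟩ s t hs ht hst
      have hv : v ∈ f := by by_contra e; exact k4.ne' (k2 v e)
      refine ⟨⟨f, hf, fun w => ?_, fun w hw => ?_, ?_⟩, ?_⟩
      · exact add_nonneg (mul_nonneg hs (dl_nonneg v w)) (mul_nonneg ht (k1 w))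
      · simp [k2 w hw, dl_ne (show w ≠ v from fun e => hw (e ▸ hv))]
      · simp only [Pi.add_apply, Pi.smul_apply, smul_eq_mul, Finset.sum_add_distrib,
          ← Finset.mul_sum, k3]
        rw [Finset.sum_eq_single_of_mem v hv fun w _ hw => dl_ne hw, dl_self]
        linarith
      · simp only [Pi.add_apply, Pi.smul_apply, smul_eq_mul, dl_self]
        rcases hs.eq_or_lt with e | e
        · have : t = 1 := by linarith
          rw [← e, this]; linarith
        · nlinarith [mul_nonneg ht k4.le])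
    (fun z => by
      obtain ⟨f, hf, k1, k2, k3⟩ := h.mem z
      by_contra hn
      push Not at hn
      rw [Finset.sum_eq_zero fun v _ => le_antisymm (not_lt.1 (hn v)) (k1 v)] at k3
      exact zero_ne_one k3)
    ψ ψ1
    (fun u v w ⟨z, ⟨hu, hv⟩, hw⟩ s => by
      by_cases e1 : u = v
      · subst e1; rw [ψ1]
      by_cases e2 : v = w
      · subst e2; rw [ψ1]
      have k := sx_of_pos (h.mem z) hu hv hw
      by_cases e3 : u = w
      · subst e3
        rw [ψ1, ψ2 _ _ (sx_adj k e1), ψ2 _ _ (sx_adj k e1).symm, hb]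
      have k' : T.Tri u v w := ⟨e1, e3, e2, k⟩
      rw [ψ2 _ _ k'.adj, ψ2 _ _ k'.rot.adj, ψ2 _ _ k'.s23.adj, ht _ _ _ k'])
    o s0 ⟨H (dl o), by simp [h.r _ (dl_mem o)]⟩
    (fun v => Relation.ReflTransGen.mono hadj _ _ (hr v))
  exact ⟨σ, k1, fun u v k => by rw [← ψ2 u v k, k2 u v (hadj u v k)]⟩

theorem other {a b c : V} (h : T.Tri a b c) :
    ∃ d, d ≠ c ∧ T.Tri a b d ∧ ∀ e, T.Tri a b e → e = c ∨ e = d := by
  obtain ⟨x, y, h1, h2, h3, h4⟩ := two h.adj
  rcases h4 c h with rfl | rfl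
  · exact ⟨y, h1.symm, h3, h4⟩
  · exact ⟨x, h1, h2, fun e he => (h4 e he).symm⟩

variable (T) in
/-- an orientation of the link of `v` -/
structure IsOr (v : V) (n : V → V) : Prop where
  tri : ∀ w, T.G.Adj v w → T.Tri v w (n w)
  ne : ∀ w, T.G.Adj v w → n (n w) ≠ w
  or : ∀ a b, T.Tri v a b → n a = b ∨ n b = a
  out : ∀ w, ¬ T.G.Adj v w → n w = w

theorem IsOr.inj {v : V} {n : V → V} (h : T.IsOr v n) {x y : V} (hx : T.G.Adj v x)
    (hy : T.G.Adj v y) (e : n x = n y) : x = y := by
  by_contra hn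
  obtain ⟨d, -, -, k⟩ := other (h.tri x hx).s23
  have k1 := (k y (e ▸ (h.tri y hy).s23)).resolve_left (Ne.symm hn)
  rcases k _ (h.tri _ (h.tri x hx).s23.adj) with k2 | k2
  · exact h.ne x hx k2
  · exact h.ne y hy (by rw [← e, k2, k1])

theorem IsOr.uniq {v : V} {n m : V → V} (h : T.IsOr v n) (h' : T.IsOr v m) {a : V}
    (ha : T.G.Adj v a) (e : n a = m a) : n = m := by
  funext x
  by_cases hx : T.G.Adj v x
  swap
  · rw [h.out x hx, h'.out x hx]
  induction link ha hx with
  | refl => exact e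
  | @tail x y _ k ih =>
    have ih := ih k.adj
    by_cases q : n x = y
    · obtain ⟨d, -, -, k1⟩ := other k.s23
      rw [(k1 _ (h.tri y hx)).resolve_left (q ▸ h.ne x k.adj),
        (k1 _ (h'.tri y hx)).resolve_left ((ih ▸ q : m x = y) ▸ h'.ne x k.adj)]
    · rw [(h.or x y k).resolve_left q, (h'.or x y k).resolve_left (ih ▸ q)]

theorem exists_or {v a b : V} (h : T.Tri v a b) : ∃ n, T.IsOr v n ∧ n a = b := by
  classical
  let D := {p : V × V // T.Tri v p.1 p.2}
  choose ot o1 o2 o3 using fun p : D => other p.2.s23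
  let r : D → D := fun p => ⟨(p.1.2, p.1.1), p.2.s23⟩
  let t : D → D := fun p => ⟨(p.1.2, ot p), o2 p⟩
  have rr : ∀ p, r (r p) = p := fun p => rfl
  have trt : ∀ p, t (r (t p)) = r p := fun p => Subtype.ext (Prod.ext rfl (by
    rcases o3 (r (t p)) p.1.1 p.2.s23 with k | k
    · exact (o1 p k.symm).elim
    · exact k.symm))
  let ρ : Equiv.Perm D := ⟨r, r, rr, rr⟩
  let τ : Equiv.Perm D := ⟨t, fun p => r (t (r p)), fun p => by simp only [trt, rr],
    fun p => by simp only [trt, rr]⟩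
  have hc : ∀ (j : ℤ) p, r ((τ ^ j) p) = (τ ^ (-j)) (r p) := fun j p => by
    have e : ρ * τ * ρ⁻¹ = τ⁻¹ := Equiv.ext fun p => rfl
    have e2 : ρ * τ ^ j * ρ⁻¹ = τ ^ (-j) := by rw [← conj_zpow, e, inv_zpow, zpow_neg]
    rw [← e2]; rfl
  let O : D → Prop := τ.SameCycle ⟨(a, b), h⟩
  have O1 : ∀ p, O (t p) ↔ O p := fun p => Equiv.Perm.sameCycle_apply_right (f := τ)
  have O2 : ∀ p, O p → ¬ O (r p) := fun p k1 k2 => by
    obtain ⟨m, hm⟩ := k1.symm.trans k2
    obtain ⟨j, rfl | rfl⟩ := Int.even_or_odd' m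
    · have : r ((τ ^ j) p) = (τ ^ j) p := by
        rw [hc, ← hm, ← Equiv.Perm.mul_apply, ← zpow_add]; congr 2; ring
      exact ((τ ^ j) p).2.2.2.1 (congrArg (fun q : D => q.1.2) this)
    · have : r ((τ ^ j) p) = t ((τ ^ j) p) := by
        rw [hc, ← hm, ← Equiv.Perm.mul_apply, ← zpow_add, show -j + (2 * j + 1) = 1 + j by ring,
          zpow_add, zpow_one]; rfl
      exact o1 _ (congrArg (fun q : D => q.1.2) this).symm
  have tr : ∀ p q : D, p.1.1 = q.1.1 → p ≠ q → t (r p) = q := fun p q e hn =>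
    Subtype.ext (Prod.ext e (by
      rcases o3 (r p) q.1.2 (by have := q.2; rw [← e] at this; exact this) with k | k
      · exact (hn (Subtype.ext (Prod.ext e k.symm))).elim
      · exact k.symm))
  have sp : ∀ p q : D, p.1.1 = q.1.1 → O p ∨ O (r p) → O q ∨ O (r q) := fun p q e k => by
    by_cases hn : p = q
    · exact hn ▸ k
    rcases k with k | k
    · exact Or.inr ((O1 _).1 (by rw [tr q p e.symm (Ne.symm hn)]; exact k))
    · exact Or.inl (by rw [← tr p q e hn]; exact (O1 _).2 k)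
  have O3 : ∀ p : D, O p ∨ O (r p) := by
    have : ∀ x, Relation.ReflTransGen (T.Tri v) a x → ∀ p : D, p.1.1 = x → O p ∨ O (r p) := by
      intro x hx
      induction hx with
      | refl => exact fun p e => sp ⟨(a, b), h⟩ p e.symm (Or.inl (Equiv.Perm.SameCycle.refl _ _))
      | @tail x y _ k ih =>
        exact fun p e => sp ⟨(y, x), k.s23⟩ p e.symm (ih ⟨(x, y), k⟩ rfl).symm
    exact fun p => this _ (link h.adj p.2.adj) p rfl
  have ex : ∀ x, T.G.Adj v x → ∃ p : D, p.1.1 = x ∧ O p := fun x hx => by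
    obtain ⟨y, hy⟩ := exists_tri hx
    rcases O3 ⟨(x, y), hy⟩ with k | k
    · exact ⟨_, rfl, k⟩
    · exact ⟨_, rfl, (O1 _).2 k⟩
  choose g g1 g2 using ex
  let n : V → V := fun x => if hx : T.G.Adj v x then (g x hx).1.2 else x
  have hn : ∀ p : D, O p → n p.1.1 = p.1.2 := fun p hp => by
    simp only [n, dif_pos p.2.adj]
    by_cases e : g _ p.2.adj = p
    · rw [e]
    · exact (O2 _ (g2 _ p.2.adj) ((O1 _).1 (by rw [tr _ p (g1 _ _) e]; exact hp))).elim
  have hg : ∀ x (hx : T.G.Adj v x), ∃ k : T.Tri v x (n x), O ⟨(x, n x), k⟩ := fun x hx => by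
    have e : (g x hx).1 = (x, n x) := Prod.ext (g1 x hx) (by simp only [n, dif_pos hx])
    have k : T.Tri v x (n x) := by have := (g x hx).2; rw [e] at this; exact this
    exact ⟨k, by rw [← (Subtype.ext e : g x hx = ⟨(x, n x), k⟩)]; exact g2 x hx⟩
  refine ⟨n, ⟨fun w hw => (hg w hw).1, fun w hw e => ?_, fun x y k => ?_, fun w hw => ?_⟩,
    hn ⟨(a, b), h⟩ (Equiv.Perm.SameCycle.refl _ _)⟩
  · obtain ⟨k1, k2⟩ := hg w hw
    obtain ⟨k3, k4⟩ := hg (n w) k1.s23.adj
    refine O2 _ k2 ?_
    have : r ⟨(w, n w), k1⟩ = ⟨(n w, n (n w)), k3⟩ := Subtype.ext (Prod.ext rfl e.symm)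
    rw [this]; exact k4
  · exact (O3 ⟨(x, y), k⟩).imp (hn _) (hn _)
  · simp only [n, dif_neg hw]

theorem IsOr.cyc {v : V} {n : V → V} (h : T.IsOr v n) {a b : V} (ha : T.G.Adj v a)
    (hb : T.G.Adj v b) : ∃ m : ℕ, n^[m] a = b := by
  have it : ∀ y, T.G.Adj v y → ∀ j : ℕ, T.G.Adj v (n^[j] y) := fun y hy j => by
    induction j with
    | zero => exact hy
    | succ j ih => rw [Function.iterate_succ_apply']; exact (h.tri _ ih).s23.adj
  have canc : ∀ x y, T.G.Adj v x → T.G.Adj v y → ∀ j : ℕ, n^[j] x = n^[j] y → x = y :=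
    fun x y hx hy j => by
      induction j with
      | zero => exact id
      | succ j ih =>
        rw [Function.iterate_succ_apply', Function.iterate_succ_apply']
        exact fun e => ih (h.inj (it x hx j) (it y hy j) e)
  induction link ha hb with
  | refl => exact ⟨0, rfl⟩
  | @tail x y _ k ih =>
    obtain ⟨m, rfl⟩ := ih k.adj
    rcases h.or _ _ k with e | e
    · exact ⟨m + 1, by rw [Function.iterate_succ_apply', e]⟩
    · obtain ⟨i, j, hij, e'⟩ := Set.Finite.exists_lt_map_eq_of_forall_mem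
        (f := fun j : ℕ => n^[j] y) (it y hb) (T.locFin v)
      obtain ⟨d, rfl⟩ := Nat.exists_eq_add_of_lt hij
      refine ⟨d + m, ?_⟩
      rw [Function.iterate_add_apply, ← e, ← Function.iterate_succ_apply]
      refine (canc _ _ hb (it y hb _) i ?_).symm
      rw [← Function.iterate_add_apply]
      exact e'

/-- a global orientation -/
theorem exists_nx : ∃ nx : V → V → V, (∀ v, T.IsOr v (nx v)) ∧
    ∀ v w, T.G.Adj v w → nx w (nx v w) = v := by
  let S : V → Type := fun v => {n // T.IsOr v n}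
  have ex : ∀ u v, T.G.Adj u v → ∀ n : S u, ∃ m : S v, m.1 (n.1 v) = u := fun u v k n => by
    obtain ⟨m, h1, h2⟩ := exists_or (n.2.tri v k).rot
    exact ⟨⟨m, h1⟩, h2⟩
  choose φ hφ using ex
  have un : ∀ u v (k : T.G.Adj u v) (n : S u) (m : S v), m.1 (n.1 v) = u → φ u v k n = m :=
    fun u v k n m e => Subtype.ext ((φ u v k n).2.uniq m.2 (n.2.tri v k).rot.adj
      (by rw [hφ, e]))
  obtain ⟨o⟩ := T.conn.nonempty
  have := T.inf
  obtain ⟨a, ha⟩ := T.conn.preconnected.exists_adj_of_nontrivial o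
  obtain ⟨b, hb⟩ := exists_tri ha
  obtain ⟨n0, hn0, -⟩ := exists_or hb
  obtain ⟨σ, -, hσ⟩ := sectT S φ
    (fun u v k n => un _ _ _ _ _ (by
      have m := (φ u v k n).2
      refine (n.2.or _ _ (m.tri u k.symm).rot).resolve_right fun e => ?_
      have := m.ne _ (n.2.tri v k).rot.adj
      rw [hφ] at this
      exact this e.symm))
    (fun u v w k n => (un _ _ _ _ _ (by
      have m := (φ u v k.adj n).2
      have l := (φ v w k.rot.adj (φ u v k.adj n)).2
      have e1 := hφ u v k.adj n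
      have e2 := hφ v w k.rot.adj (φ u v k.adj n)
      rcases n.2.or _ _ k with e | e
      · rw [e] at e1
        rw [e1] at e2
        refine (l.or _ _ (n.2.tri w k.s23.adj).rot).resolve_right fun q => ?_
        exact n.2.ne v k.adj (by rw [e, ← q, e2])
      · rw [e]
        have q1 : (φ u v k.adj n).1 u = w := (m.or _ _ k.rot).resolve_left fun q =>
          n.2.ne w k.s23.adj (by
            rw [e]; exact m.inj (n.2.tri v k.adj).rot.adj k.rot.adj (e1.trans q.symm))
        refine (l.or _ _ k.rot.s12).resolve_right fun q => ?_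
        exact m.ne u k.adj.symm (by
          rw [q1]
          exact l.inj (m.tri w k.rot.adj).rot.adj k.s23.adj.symm (e2.trans q.symm)))).symm)
    o ⟨n0, hn0⟩
  exact ⟨fun v => (σ v).1, fun v => (σ v).2, fun v w k => by
    simp only [← hσ v w k, hφ]⟩

theorem simply {nx : V → V → V} (h : ∀ v, T.IsOr v (nx v)) (v : V) (c : T.G.Walk v v) :
    Relation.EqvGen (Move T.G nx) c.support [v] := by
  let s := Relation.EqvGen.setoid (Move T.G nx)
  have app : ∀ (w : V) (l l' : List V), s l l' → s (l ++ [w]) (l' ++ [w]) := fun w l l' k => by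
    replace k : Relation.EqvGen (Move T.G nx) l l' := k
    show Relation.EqvGen (Move T.G nx) _ _
    induction k with
    | rel x y k =>
      refine .rel _ _ ?_
      cases k with
      | back l r a b k => simpa using Move.back l (r ++ [w]) a b k
      | tri l r a b k => simpa using Move.tri l (r ++ [w]) a b k
    | refl => exact .refl _
    | symm _ _ _ ih => exact .symm _ _ ih
    | trans _ _ _ _ _ i1 i2 => exact .trans _ _ _ i1 i2
  let S : V → Type := fun w => {q : Quotient s // ∃ l, q = Quotient.mk s (l ++ [w])}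
  let φ : ∀ u w, T.G.Adj u w → S u → S w := fun u w _ q =>
    ⟨Quotient.map (sa := s) (sb := s) (fun l => l ++ [w]) (app w) q.1, by
      obtain ⟨l, e⟩ := q.2
      exact ⟨l ++ [u], by rw [e]; rfl⟩⟩
  obtain ⟨σ, k1, k2⟩ := sectT S φ
    (by
      rintro u w k ⟨q, l, rfl⟩
      exact Subtype.ext (Quotient.sound (Relation.EqvGen.rel _ _ (by
        simpa using Move.back l [] u w k))))
    (by
      rintro u x w k ⟨q, l, rfl⟩
      refine Subtype.ext (Quotient.sound ?_)
      show Relation.EqvGen (Move T.G nx) _ _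
      rcases (h u).or _ _ k with e | e
      · subst e
        exact .rel _ _ (by simpa using Move.tri l [] u x k.adj)
      · subst e
        refine .trans _ (l ++ [u, w, nx u w, w]) _ (.symm _ _ (.rel _ _ ?_)) (.rel _ _ ?_)
        · simpa using Move.tri l [w] u w k.s23.adj
        · simpa using Move.back (l ++ [u]) [] w (nx u w) k.rot.adj.symm)
    v ⟨Quotient.mk s ([] ++ [v]), [], rfl⟩
  have key : ∀ (u w : V) (p : T.G.Walk u w) (l : List V), (σ u).1 = Quotient.mk s (l ++ [u]) →
      (σ w).1 = Quotient.mk s (l ++ p.support) := fun u w p => by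
    induction p with
    | nil => exact fun l e => e
    | @cons a b _ k p ih =>
      intro l e
      have := ih (l ++ [a]) (by rw [← k2 a b k]; simp only [φ, e]; rfl)
      simpa using this
  have := key v v c [] (by rw [k1])
  rw [k1] at this
  exact (Quotient.exact this).symm

/-- a triangulation of the plane is a combinatorial plane triangulation -/
theorem exists_planeTri (T : EmbTri V) : ∃ P : PlaneTri V, P.G = T.G := by
  obtain ⟨nx, h1, h2⟩ := exists_nx (T := T)
  exact ⟨⟨T.G, nx, T.conn, T.locFin,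
    fun v w k => ⟨((h1 v).tri w k).s23.adj, ((h1 v).tri w k).rot.adj⟩, h2,
    fun v a b => (h1 v).cyc, simply h1⟩, rfl⟩

end EmbTri

end Pool.Agent.P.MP_e4ac67_pr
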