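import Pool.Agent.P.MP_e4ac67_pr.Emb.Defs

/-! The `k`-regular triangulation of the plane exists: straight triangles with corners in the
integer lattice. -/

namespace Pool.Agent.P.MP_e4ac67_pr.Reg

open Set

/-- a staircase, described from both sides -/
def St (s r : ℤ → ℤ) : Prop := ∀ i j, s i < j ↔ i ≤ r j

variable {s r : ℤ → ℤ}

theorem St.symm (h : St s r) : St r s := fun j i => by
  have := h i j
  omega

theorem St.mono (h : St s r) : Monotone s := fun a b hab => by
  have h1 := h b (s a)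
  have h2 := h a (s a)
  omega

/-- truncation -/
noncomputable def cl (z w : ℝ) : ℝ := max 0 (min z w)

theorem cl_full {z w : ℝ} (h : w ≤ z) (h0 : 0 ≤ w) : cl z w = w := by
  rw [cl, min_eq_right h, max_eq_right h0]

theorem cl_mid {z w : ℝ} (h : z ≤ w) (h0 : 0 ≤ z) : cl z w = z := by
  rw [cl, min_eq_left h, max_eq_right h0]

theorem cl_z {z w : ℝ} (h : z ≤ 0) : cl z w = 0 := max_eq_left ((min_le_left _ _).trans h)

theorem cl_w {z w : ℝ} (h : w ≤ 0) : cl z w = 0 := max_eq_left ((min_le_right _ _).trans h)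

theorem clA (h : St s r) {a b c : ℝ} (ha : 0 ≤ a) (hb : 0 ≤ b) (hc : 0 ≤ c) (e : a + b + c = 1)
    (i m : ℤ) : cl (a * i + b * (i + 1) + c * s (i + 1) - (m - 1) - c * (s m - m + 1)) (1 - c) =
      (if m ≤ i then a else 0) + (if m ≤ i + 1 then b else 0) := by
  have e1 : a * i + b * (i + 1) + c * s (i + 1) - (m - 1) - c * (s m - m + 1) =
      (a + b) * (i - m + 1) + b + c * (s (i + 1) - s m) := by
    linear_combination (m - 1 : ℝ) * e
  rw [e1, show 1 - c = a + b by linarith]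
  rcases lt_trichotomy m (i + 1) with k | k | k
  · have k1 : (m : ℝ) ≤ i := by exact_mod_cast (by omega : m ≤ i)
    have k2 : (s m : ℝ) ≤ s (i + 1) := by exact_mod_cast h.mono k.le
    rw [if_pos (by omega), if_pos k.le]
    exact cl_full (by
      nlinarith [mul_nonneg (add_nonneg ha hb) (sub_nonneg.2 k1),
        mul_nonneg hc (sub_nonneg.2 k2)]) (add_nonneg ha hb)
  · subst k
    rw [if_neg (by omega), if_pos le_rfl]
    push_cast
    rw [cl_mid (by linarith) (by linarith)]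
    ring
  · have k1 : (i : ℝ) + 2 ≤ m := by exact_mod_cast (by omega : i + 2 ≤ m)
    have k2 : (s (i + 1) : ℝ) ≤ s m := by exact_mod_cast h.mono k.le
    rw [if_neg (by omega), if_neg (by omega), add_zero]
    exact cl_z (by
      nlinarith [mul_nonneg (add_nonneg ha hb) (sub_nonneg.2 k1),
        mul_nonneg hc (sub_nonneg.2 k2)])

theorem clB (h : St s r) {a b c : ℝ} (ha : 0 ≤ a) (hb : 0 ≤ b) (hc : 0 ≤ c) (e : a + b + c = 1)
    (i m : ℤ) : cl (a * i + b * (i + 1) + c * s (i + 1) - (m - 1) - (1 - c) * (r m - m + 1)) c =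
      if m ≤ s (i + 1) then c else 0 := by
  have e1 : a * i + b * (i + 1) + c * s (i + 1) - (m - 1) - (1 - c) * (r m - m + 1) =
      (a + b) * (i - r m) + b + c * (s (i + 1) - m + 1) := by
    linear_combination (r m : ℝ) * e
  rw [e1]
  have := h (i + 1) m
  split_ifs with k
  · have k1 : (r m : ℝ) ≤ i := by exact_mod_cast (by omega : r m ≤ i)
    have k2 : (m : ℝ) ≤ s (i + 1) := by exact_mod_cast k
    exact cl_full (by
      nlinarith [mul_nonneg (add_nonneg ha hb) (sub_nonneg.2 k1),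
        mul_nonneg hc (sub_nonneg.2 k2)]) hc
  · have k1 : (i : ℝ) + 1 ≤ r m := by exact_mod_cast (by omega : i + 1 ≤ r m)
    have k2 : (s (i + 1) : ℝ) + 1 ≤ m := by exact_mod_cast (by omega : s (i + 1) + 1 ≤ m)
    exact cl_z (by
      nlinarith [mul_nonneg (add_nonneg ha hb) (sub_nonneg.2 k1),
        mul_nonneg hc (sub_nonneg.2 k2)])

variable (s r)

/-- the faces -/
def F : Set (Finset (ℤ × ℤ)) :=
  {f | ∃ i n, f = {(i, n), (i + 1, n), (s (i + 1), n + 1)} ∨
    f = {(i, n), (i + 1, n), (r (i + 1), n - 1)}}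

/-- cumulated barycentric coordinates -/
noncomputable def E (m l : ℤ) (p : ℝ × ℝ) : ℝ :=
  cl (p.1 - (m - 1) - max (p.2 - l) 0 * (s m - m + 1) - max (l - p.2) 0 * (r m - m + 1))
    (1 - |p.2 - l|)

/-- barycentric coordinates -/
noncomputable def B (p : ℝ × ℝ) (v : ℤ × ℤ) : ℝ := E s r v.1 v.2 p - E s r (v.1 + 1) v.2 p

/-- the position of a point of the realization -/
noncomputable def Ps (x : ℤ × ℤ → ℝ) : ℝ × ℝ := ∑ᶠ v, x v • ((v.1 : ℝ), (v.2 : ℝ))

theorem cont_B : Continuous (B s r) := continuous_pi fun v => by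
  unfold B E cl
  fun_prop

theorem E_neg (m l : ℤ) (x y : ℝ) : E s r m l (x, y) = E r s m (-l) (x, -y) := by
  simp only [E]
  push_cast
  rw [show -y - -(l : ℝ) = l - y by ring, show -(l : ℝ) - -y = y - l by ring, abs_sub_comm (l : ℝ) y]
  congr 1
  ring

variable {s r}

theorem E_up (h : St s r) {a b c : ℝ} (ha : 0 ≤ a) (hb : 0 ≤ b) (hc : 0 ≤ c) (e : a + b + c = 1)
    (i n m l : ℤ) : E s r m l (a * i + b * (i + 1) + c * s (i + 1), n + c) =
      (if l = n ∧ m ≤ i then a else 0) + (if l = n ∧ m ≤ i + 1 then b else 0) +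
        if l = n + 1 ∧ m ≤ s (i + 1) then c else 0 := by
  have hc1 : c ≤ 1 := by linarith
  by_cases h1 : l = n
  · subst h1
    simp only [E, add_sub_cancel_left, max_eq_left hc, abs_of_nonneg hc, true_and,
      show max ((l : ℝ) - (l + c)) 0 = 0 from max_eq_right (by linarith), zero_mul, sub_zero,
      clA h ha hb hc e]
    rw [if_neg (show ¬(l = l + 1 ∧ _) by omega), add_zero]
  by_cases h2 : l = n + 1
  · subst h2
    simp only [E, h1, false_and, true_and, if_false, zero_add]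
    push_cast
    rw [max_eq_right (by linarith), max_eq_left (by linarith), abs_of_nonpos (by linarith),
      ← clB h ha hb hc e]
    congr 1 <;> ring
  simp only [h1, h2, false_and, if_false, add_zero]
  refine cl_w (sub_nonpos.2 (le_abs.2 ?_))
  rcases lt_or_gt_of_ne h1 with k | k
  · have : (l : ℝ) + 1 ≤ n := by exact_mod_cast k
    left; simp only; linarith
  · have : (n : ℝ) + 2 ≤ l := by exact_mod_cast (by omega : n + 2 ≤ l)
    right; simp only; linarith

theorem B_up (h : St s r) {a b c : ℝ} (ha : 0 ≤ a) (hb : 0 ≤ b) (hc : 0 ≤ c) (e : a + b + c = 1)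
    (i n : ℤ) (v : ℤ × ℤ) : B s r (a * i + b * (i + 1) + c * s (i + 1), n + c) v =
      (if v = (i, n) then a else 0) + (if v = (i + 1, n) then b else 0) +
        if v = (s (i + 1), n + 1) then c else 0 := by
  obtain ⟨m, l⟩ := v
  simp only [B, E_up h ha hb hc e, Prod.mk.injEq]
  split_ifs <;> first | omega | ring

theorem B_dn (h : St s r) {a b c : ℝ} (ha : 0 ≤ a) (hb : 0 ≤ b) (hc : 0 ≤ c) (e : a + b + c = 1)
    (i n : ℤ) (v : ℤ × ℤ) : B s r (a * i + b * (i + 1) + c * r (i + 1), n - c) v =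
      (if v = (i, n) then a else 0) + (if v = (i + 1, n) then b else 0) +
        if v = (r (i + 1), n - 1) then c else 0 := by
  obtain ⟨m, l⟩ := v
  have := B_up h.symm ha hb hc e i (-n) (m, -l)
  simp only [B] at this ⊢
  rw [E_neg, E_neg s r, show -((n : ℝ) - c) = ((-n : ℤ) : ℝ) + c by push_cast; ring, this]
  simp only [Prod.mk.injEq]
  split_ifs <;> first | omega | ring

theorem Ps_eq {x : ℤ × ℤ → ℝ} {S : Finset (ℤ × ℤ)} (h : ∀ v, v ∉ S → x v = 0) :
    Ps x = ∑ v ∈ S, x v • ((v.1 : ℝ), (v.2 : ℝ)) :=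
  finsum_eq_sum_of_support_subset _ fun v hv => by
    by_contra k
    exact hv (by simp only [h v k, zero_smul])

theorem sum3 {M : Type} [AddCommMonoid M] (g : ℤ × ℤ → M) (i n j : ℤ) {l : ℤ} (hl : l ≠ n) :
    ∑ v ∈ ({(i, n), (i + 1, n), (j, l)} : Finset (ℤ × ℤ)), g v =
      g (i, n) + g (i + 1, n) + g (j, l) := by
  rw [Finset.sum_insert (by simp [hl.symm]), Finset.sum_pair (by simp [hl.symm]), add_assoc]

theorem rep3 {x : ℤ × ℤ → ℝ} {i n j l : ℤ} (hl : l ≠ n)
    (h : ∀ v, v ∉ ({(i, n), (i + 1, n), (j, l)} : Finset (ℤ × ℤ)) → x v = 0) (v : ℤ × ℤ) :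
    (if v = (i, n) then x (i, n) else 0) + (if v = (i + 1, n) then x (i + 1, n) else 0) +
      (if v = (j, l) then x (j, l) else 0) = x v := by
  by_cases h1 : v = (i, n)
  · simp [h1, hl.symm]
  by_cases h2 : v = (i + 1, n)
  · simp [h2, hl.symm]
  by_cases h3 : v = (j, l)
  · simp [h3, hl]
  simp [h1, h2, h3, h v (by simp [h1, h2, h3])]

theorem B_Ps (h : St s r) {x : ℤ × ℤ → ℝ} (hx : x ∈ realization (F s r)) : B s r (Ps x) = x := by
  obtain ⟨f, ⟨i, n, rfl | rfl⟩, k1, k2, k3⟩ := hx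
  · rw [sum3 _ _ _ _ (by omega)] at k3
    funext v
    rw [← rep3 (by omega) k2 v, ← B_up h (k1 _) (k1 _) (k1 _) k3, Ps_eq k2,
      sum3 _ _ _ _ (by omega)]
    congr 1
    ext
    · simp
    · simp only [Prod.snd_add, Prod.smul_mk, smul_eq_mul]
      push_cast
      linear_combination (n : ℝ) * k3
  · rw [sum3 _ _ _ _ (by omega)] at k3
    funext v
    rw [← rep3 (by omega) k2 v, ← B_dn h (k1 _) (k1 _) (k1 _) k3, Ps_eq k2,
      sum3 _ _ _ _ (by omega)]
    congr 1
    ext
    · simp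
    · simp only [Prod.snd_add, Prod.smul_mk, smul_eq_mul]
      push_cast
      linear_combination (n : ℝ) * k3

theorem pt3 {i n j l : ℤ} (hl : l ≠ n)
    (hf : ({(i, n), (i + 1, n), (j, l)} : Finset (ℤ × ℤ)) ∈ F s r)
    {a b c : ℝ} (ha : 0 ≤ a) (hb : 0 ≤ b) (hc : 0 ≤ c) (e : a + b + c = 1) :
    ∃ x ∈ realization (F s r), Ps x = (a * i + b * (i + 1) + c * j, (a + b) * n + c * l) := by
  let x : ℤ × ℤ → ℝ := fun v => (if v = (i, n) then a else 0) + (if v = (i + 1, n) then b else 0) +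
    if v = (j, l) then c else 0
  have h0 : ∀ v, v ∉ ({(i, n), (i + 1, n), (j, l)} : Finset (ℤ × ℤ)) → x v = 0 := fun v hv => by
    simp only [Finset.mem_insert, Finset.mem_singleton, not_or] at hv
    simp [x, hv]
  have x1 : x (i, n) = a := by simp [x, hl.symm]
  have x2 : x (i + 1, n) = b := by simp [x, hl.symm]
  have x3 : x (j, l) = c := by simp [x, hl]
  refine ⟨x, ⟨_, hf, fun v => ?_, h0, by rw [sum3 _ _ _ _ hl, x1, x2, x3, e]⟩, ?_⟩
  · simp only [x]
    split_ifs <;> linarith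
  · rw [Ps_eq h0, sum3 _ _ _ _ hl, x1, x2, x3]
    ext
    · simp
    · simp only [Prod.snd_add, Prod.smul_mk, smul_eq_mul]
      ring

theorem surj (h : St s r) (p : ℝ × ℝ) : ∃ x ∈ realization (F s r), Ps x = p := by
  obtain ⟨x, y⟩ := p
  obtain ⟨n, t, t0, t1, rfl⟩ : ∃ (n : ℤ) (t : ℝ), 0 ≤ t ∧ t < 1 ∧ y = n + t :=
    ⟨⌊y⌋, Int.fract y, Int.fract_nonneg y, Int.fract_lt_one y, (Int.floor_add_fract y).symm⟩
  have hu : 0 < 1 - t := by linarith
  obtain ⟨i, h1, h2⟩ := Int.exists_greatest_of_bdd (P := fun i : ℤ => (1 - t) * i + t * s i ≤ x)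
    ⟨max 0 ⌈(x - t * s 0) / (1 - t)⌉, fun i hi => by
      rcases le_total i 0 with k | k
      · exact le_max_of_le_left k
      · have k2 : (s 0 : ℝ) ≤ s i := by exact_mod_cast h.mono k
        refine le_max_of_le_right ((Int.cast_le (R := ℝ)).1 (le_trans ?_ (Int.le_ceil _)))
        rw [le_div_iff₀ hu]
        nlinarith [mul_nonneg t0 (sub_nonneg.2 k2)]⟩
    ⟨min 0 ⌊(x - t * s 0) / (1 - t)⌋, by
      have k2 : (s (min 0 ⌊(x - t * s 0) / (1 - t)⌋) : ℝ) ≤ s 0 := by
        exact_mod_cast h.mono (min_le_left _ _)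
      have k3 : ((min 0 ⌊(x - t * s 0) / (1 - t)⌋ : ℤ) : ℝ) ≤ (x - t * s 0) / (1 - t) :=
        ((Int.cast_le (R := ℝ)).2 (min_le_right _ _)).trans (Int.floor_le _)
      rw [le_div_iff₀ hu] at k3
      nlinarith [mul_nonneg t0 (sub_nonneg.2 k2)]⟩
  have h3 : x < (1 - t) * (i + 1) + t * s (i + 1) := by
    by_contra k
    have := h2 (i + 1) (by push_cast; exact not_lt.1 k)
    omega
  rcases le_or_gt ((1 - t) * i + t * s (i + 1)) x with k | k
  · obtain ⟨z, z1, z2⟩ := pt3 (s := s) (r := r) (i := i) (n := n) (l := n + 1) (by omega)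
      ⟨i, n, Or.inl rfl⟩ (a := (1 - t) * (i + 1) + t * s (i + 1) - x)
      (b := x - ((1 - t) * i + t * s (i + 1))) (c := t) (by linarith) (by linarith) t0 (by ring)
    refine ⟨z, z1, z2.trans (Prod.ext ?_ ?_)⟩ <;> push_cast <;> ring
  · have tp : 0 < t := by
      rcases t0.eq_or_lt with e | e
      · subst e; linarith
      · exact e
    obtain ⟨j, j1, j2⟩ : ∃ j : ℤ, t * j ≤ x - (1 - t) * i ∧ x - (1 - t) * i < t * (j + 1) :=
      ⟨⌊(x - (1 - t) * i) / t⌋, by rw [← le_div_iff₀' tp]; exact Int.floor_le _,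
        by rw [← div_lt_iff₀' tp]; exact Int.lt_floor_add_one _⟩
    have j3 : s i < j + 1 := by
      have : (s i : ℝ) < j + 1 := lt_of_mul_lt_mul_left (by linarith) t0
      exact_mod_cast this
    have j4 : j < s (i + 1) := by
      have : (j : ℝ) < s (i + 1) := lt_of_mul_lt_mul_left (by linarith) t0
      exact_mod_cast this
    have j5 : r (j + 1) = i := by
      have := h i (j + 1)
      have := h (i + 1) (j + 1)
      omega
    obtain ⟨z, z1, z2⟩ := pt3 (s := s) (r := r) (i := j) (n := n + 1) (j := i) (l := n) (by omega)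
      ⟨j, n + 1, Or.inr (by rw [j5, add_sub_cancel_right])⟩ (a := t * (j + 1) - (x - (1 - t) * i))
      (b := x - (1 - t) * i - t * j) (c := 1 - t) (by linarith) (by linarith) hu.le (by ring)
    refine ⟨z, z1, z2.trans (Prod.ext ?_ ?_)⟩ <;> push_cast <;> ring

variable (s r) in
/-- the graph -/
def G : SimpleGraph (ℤ × ℤ) where
  Adj v w := v ≠ w ∧ ∃ f ∈ F s r, v ∈ f ∧ w ∈ f
  symm := ⟨fun _ _ ⟨h, f, h1, h2, h3⟩ => ⟨h.symm, f, h1, h3, h2⟩⟩
  loopless := ⟨fun _ h => h.1 rfl⟩

variable (s r) in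
/-- the neighbours -/
noncomputable def N (v : ℤ × ℤ) : Finset (ℤ × ℤ) :=
  ({(v.1 - 1, v.2), (v.1 + 1, v.2)} ∪ Finset.Icc (s v.1) (s (v.1 + 1)) ×ˢ {v.2 + 1}) ∪
    Finset.Icc (r v.1) (r (v.1 + 1)) ×ˢ {v.2 - 1}

theorem adj_iff (h : St s r) (v w : ℤ × ℤ) : (G s r).Adj v w ↔ w ∈ N s r v := by
  obtain ⟨a, b⟩ := v
  obtain ⟨c, d⟩ := w
  have hs := h.mono
  have hr := h.symm.mono
  simp only [G, F, N, Finset.mem_union, Finset.mem_insert, Finset.mem_singleton, Prod.mk.injEq,
    Finset.mem_product, Finset.mem_Icc, mem_ofPred_eq, ne_eq]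
  constructor
  · rintro ⟨h0, f, ⟨i, n, rfl | rfl⟩, h1, h2⟩
    · have := hs (show i ≤ i + 1 by omega)
      have := hs (show i + 1 ≤ i + 1 + 1 by omega)
      have := h (i + 1) (s (i + 1))
      have := h (i + 1) (s (i + 1) + 1)
      simp only [Finset.mem_insert, Finset.mem_singleton, Prod.mk.injEq] at h1 h2
      rcases h1 with ⟨rfl, rfl⟩ | ⟨rfl, rfl⟩ | ⟨rfl, rfl⟩ <;> omega
    · have := hr (show i ≤ i + 1 by omega)
      have := hr (show i + 1 ≤ i + 1 + 1 by omega)
      have := h.symm (i + 1) (r (i + 1))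
      have := h.symm (i + 1) (r (i + 1) + 1)
      simp only [Finset.mem_insert, Finset.mem_singleton, Prod.mk.injEq] at h1 h2
      rcases h1 with ⟨rfl, rfl⟩ | ⟨rfl, rfl⟩ | ⟨rfl, rfl⟩ <;> omega
  · rintro (((⟨rfl, rfl⟩ | ⟨rfl, rfl⟩) | ⟨⟨k1, k2⟩, rfl⟩) | ⟨⟨k1, k2⟩, rfl⟩)
    · exact ⟨by omega, _, ⟨a - 1, d, Or.inl rfl⟩, by simp, by simp⟩
    · exact ⟨by omega, _, ⟨a, d, Or.inl rfl⟩, by simp, by simp⟩
    · rcases k2.eq_or_lt with e | e
      · exact ⟨by omega, _, ⟨a, b, Or.inl rfl⟩, by simp, by simp [e]⟩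
      · have e' : r (c + 1) = a := by
          have := h a (c + 1)
          have := h (a + 1) (c + 1)
          omega
        exact ⟨by omega, _, ⟨c, b + 1, Or.inr rfl⟩, by simp [e'], by simp⟩
    · rcases k2.eq_or_lt with e | e
      · exact ⟨by omega, _, ⟨a, b, Or.inr rfl⟩, by simp, by simp [e]⟩
      · have e' : s (c + 1) = a := by
          have := h.symm a (c + 1)
          have := h.symm (a + 1) (c + 1)
          omega
        exact ⟨by omega, _, ⟨c, b - 1, Or.inl rfl⟩, by simp [e'], by simp⟩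

theorem nbr (h : St s r) (v : ℤ × ℤ) : (G s r).neighborSet v = N s r v :=
  Set.ext fun w => adj_iff h v w

theorem card_N (h : St s r) (v : ℤ × ℤ) :
    ((N s r v).card : ℤ) = 4 + (s (v.1 + 1) - s v.1) + (r (v.1 + 1) - r v.1) := by
  have h1 := h.mono (show v.1 ≤ v.1 + 1 by omega)
  have h2 := h.symm.mono (show v.1 ≤ v.1 + 1 by omega)
  rw [N, Finset.card_union_of_disjoint, Finset.card_union_of_disjoint,
    Finset.card_pair (by simp only [ne_eq, Prod.mk.injEq]; omega)]
  · simp only [Finset.card_product, Finset.card_singleton, mul_one, Int.card_Icc]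
    omega
  · rw [Finset.disjoint_left]
    rintro ⟨a, b⟩
    simp only [Finset.mem_insert, Finset.mem_singleton, Prod.mk.injEq, Finset.mem_product]
    omega
  · rw [Finset.disjoint_left]
    rintro ⟨a, b⟩
    simp only [Finset.mem_union, Finset.mem_insert, Finset.mem_singleton, Prod.mk.injEq,
      Finset.mem_product]
    omega

theorem conn (h : St s r) : (G s r).Connected := by
  have h1 : ∀ n i j : ℤ, (G s r).Reachable (i, n) (j, n) := fun n i j => by
    have k : ∀ m : ℤ, (G s r).Reachable (m, n) (m + 1, n) := fun m =>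
      ((adj_iff h _ _).2 (by simp [N])).reachable
    have : ∀ m : ℤ, (G s r).Reachable (0, n) (m, n) := fun m => by
      induction m using Int.induction_on with
      | zero => rfl
      | succ m ih => exact ih.trans (k m)
      | pred m ih => exact ih.trans (by simpa using (k (-m - 1)).symm)
    exact (this i).symm.trans (this j)
  have h2 : ∀ n : ℤ, (G s r).Reachable (0, n) (0, n + 1) := fun n =>
    ((adj_iff h (0, n) (s 0, n + 1)).2 (by
      have := h.mono (show (0 : ℤ) ≤ 1 by omega)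
      simp [N, this])).reachable.trans (h1 _ _ _)
  have h3 : ∀ n : ℤ, (G s r).Reachable (0, 0) (0, n) := fun n => by
    induction n using Int.induction_on with
    | zero => rfl
    | succ m ih => exact ih.trans (h2 m)
    | pred m ih => exact ih.trans (by simpa using (h2 (-m - 1)).symm)
  exact ⟨fun v w => ((h1 _ _ 0).trans (h3 v.2).symm).trans ((h3 w.2).trans (h1 _ _ _))⟩

theorem cont_Ps (h : St s r) : Continuous fun x : realization (F s r) => Ps x.1 := by
  refine continuous_iff_continuousAt.2 fun x0 => ?_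
  obtain ⟨v, hv⟩ : ∃ v, 0 < x0.1 v := by
    obtain ⟨f, -, k1, -, k3⟩ := x0.2
    by_contra hn
    push Not at hn
    rw [Finset.sum_eq_zero fun v _ => le_antisymm (hn v) (k1 v)] at k3
    exact zero_ne_one k3
  have hx : ∀ w, Continuous fun x : realization (F s r) => x.1 w := fun w =>
    (continuous_apply w).comp continuous_subtype_val
  have hc : Continuous fun x : realization (F s r) =>
      ∑ w ∈ insert v (N s r v), x.1 w • ((w.1 : ℝ), (w.2 : ℝ)) :=
    continuous_finsetSum _ fun w _ => (hx w).smul continuous_const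
  refine hc.continuousAt.congr ?_
  have ho : IsOpen {x : realization (F s r) | 0 < x.1 v} := isOpen_lt continuous_const (hx v)
  filter_upwards [ho.mem_nhds hv] with x hx
  refine (Ps_eq fun w hw => ?_).symm
  obtain ⟨f, hf, -, k2, -⟩ := x.2
  refine k2 w fun k => hw ?_
  rw [Finset.mem_insert, ← adj_iff h, or_iff_not_imp_left]
  exact fun e => ⟨Ne.symm e, f, hf, by_contra fun q => hx.ne' (k2 v q), k⟩

theorem B_mem (h : St s r) (p : ℝ × ℝ) : B s r p ∈ realization (F s r) := by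
  obtain ⟨x, h1, rfl⟩ := surj h p
  rwa [B_Ps h h1]

theorem Ps_B (h : St s r) (p : ℝ × ℝ) : Ps (B s r p) = p := by
  obtain ⟨x, h1, rfl⟩ := surj h p
  rw [B_Ps h h1]

/-- the realization is the plane -/
noncomputable def homeo (h : St s r) : realization (F s r) ≃ₜ ℝ × ℝ where
  toFun x := Ps x.1
  invFun p := ⟨B s r p, B_mem h p⟩
  left_inv x := Subtype.ext (B_Ps h x.2)
  right_inv := Ps_B h
  continuous_toFun := cont_Ps h
  continuous_invFun := (cont_B s r).subtype_mk _

/-- the triangulation defined by a staircase -/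
noncomputable def tri (h : St s r) : EmbTri (ℤ × ℤ) where
  G := G s r
  faces := F s r
  inf := inferInstance
  conn := conn h
  locFin v := by rw [nbr h]; exact Finset.finite_toSet _
  card_face := by
    rintro f ⟨i, n, rfl | rfl⟩ <;>
      exact Finset.card_eq_three.2 ⟨_, _, _, by simp, by simp only [ne_eq, Prod.mk.injEq]; omega,
        by simp only [ne_eq, Prod.mk.injEq]; omega, rfl⟩
  adj_iff _ _ := Iff.rfl
  emb := (homeo h).trans (Complex.equivRealProdCLM.symm.toHomeomorph.trans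
    Complex.orthonormalBasisOneI.repr.toHomeomorph)

theorem exists_reg {k : ℕ} (hk : 6 ≤ k) :
    ∃ T : EmbTri (ℤ × ℤ), ∀ v, (T.G.neighborSet v).ncard = k := by
  have hk' : (6 : ℝ) ≤ k := by exact_mod_cast hk
  obtain ⟨L, L0, L1⟩ : ∃ L : ℝ, 0 < L ∧ L * (k - 4 - L) = 1 := by
    have hc : ContinuousOn (fun L : ℝ => L * (k - 4 - L)) (Icc 0 1) := by fun_prop
    obtain ⟨L, h1, h2⟩ := intermediate_value_Icc zero_le_one hc
      (show (1 : ℝ) ∈ _ from ⟨by simp, by linarith⟩)
    refine ⟨L, h1.1.lt_of_ne ?_, h2⟩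
    rintro rfl
    simp at h2
  have h : St (fun i => ⌊i * L⌋) (fun j => j * (k - 4) - ⌊j * L⌋ - 1) := fun i j => by
    have e : i ≤ j * (k - 4) - ⌊j * L⌋ - 1 ↔ ⌊j * L⌋ < j * (k - 4) - i := by omega
    simp only [e, Int.floor_lt]
    push_cast
    have e2 : ((j : ℝ) * (k - 4) - i) * L - j * L * L = j - i * L := by
      linear_combination (j : ℝ) * L1
    constructor
    · intro q
      refine lt_of_mul_lt_mul_right ?_ L0.le
      linarith
    · intro q
      have := mul_lt_mul_of_pos_right q L0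
      linarith
  refine ⟨tri h, fun v => ?_⟩
  have := card_N h v
  show ((G _ _).neighborSet v).ncard = k
  rw [nbr h, Set.ncard_coe_finset]
  zify
  rw [this]
  ring

end Pool.Agent.P.MP_e4ac67_pr.Reg
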