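import Pool.Agent.P.MP_e4ac67_pr.Emb.Defs
import Pool.Agent.P.MP_e4ac67_pr.Emb.Log

/-! Local topology of a triangulation of the plane. -/

namespace Pool.Agent.P.MP_e4ac67_pr

open Set Metric Topology Emb

namespace EmbTri

variable {V : Type} (T : EmbTri V)

/-- three vertices, not necessarily different, on one face -/
def Sx (a b c : V) : Prop := ∃ f ∈ T.faces, a ∈ f ∧ b ∈ f ∧ c ∈ f

/-- the three corners of a face -/
def Tri (a b c : V) : Prop := a ≠ b ∧ a ≠ c ∧ b ≠ c ∧ T.Sx a b c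

/-- the point of the realization at a vertex -/
noncomputable def dl (v : V) : V → ℝ := by
  classical
  exact fun w => if w = v then 1 else 0

/-- the closed triangle with corners `a, b, c` -/
def Page (a b c : V) : Set (V → ℝ) :=
  {x | (∀ v, 0 ≤ x v) ∧ (∀ v, v ≠ a → v ≠ b → v ≠ c → x v = 0) ∧ x a + x b + x c = 1}

@[simp] theorem dl_self (v : V) : dl v v = 1 := by simp [dl]

theorem dl_ne {v w : V} (h : w ≠ v) : dl v w = 0 := by simp [dl, h]

theorem dl_nonneg (v w : V) : 0 ≤ dl v w := by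
  unfold dl; split_ifs <;> norm_num

variable {T}

theorem Tri.s12 {a b c : V} (h : T.Tri a b c) : T.Tri b a c := by
  obtain ⟨h1, h2, h3, f, hf, k1, k2, k3⟩ := h
  exact ⟨h1.symm, h3, h2, f, hf, k2, k1, k3⟩

theorem Tri.s23 {a b c : V} (h : T.Tri a b c) : T.Tri a c b := by
  obtain ⟨h1, h2, h3, f, hf, k1, k2, k3⟩ := h
  exact ⟨h2, h1, h3.symm, f, hf, k1, k3, k2⟩

theorem Tri.rot {a b c : V} (h : T.Tri a b c) : T.Tri b c a := h.s12.s23

theorem Tri.adj {a b c : V} (h : T.Tri a b c) : T.G.Adj a b := by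
  obtain ⟨h1, -, -, f, hf, k1, k2, -⟩ := h
  exact (T.adj_iff a b).2 ⟨h1, f, hf, k1, k2⟩

theorem face_mem {f : Finset V} (hf : f ∈ T.faces) {a b c : V} (h1 : a ≠ b) (h2 : a ≠ c)
    (h3 : b ≠ c) (ha : a ∈ f) (hb : b ∈ f) (hc : c ∈ f) {v : V} :
    v ∈ f ↔ v = a ∨ v = b ∨ v = c := by
  classical
  have : ({a, b, c} : Finset V) = f := Finset.eq_of_subset_of_card_le
    (by intro x hx; simp only [Finset.mem_insert, Finset.mem_singleton] at hx
        rcases hx with rfl | rfl | rfl <;> assumption)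
    (by rw [T.card_face f hf, Finset.card_eq_three.2 ⟨a, b, c, h1, h2, h3, rfl⟩])
  rw [← this]; simp

theorem face_sum {f : Finset V} (hf : f ∈ T.faces) {a b c : V} (h1 : a ≠ b) (h2 : a ≠ c)
    (h3 : b ≠ c) (ha : a ∈ f) (hb : b ∈ f) (hc : c ∈ f) (x : V → ℝ) :
    ∑ v ∈ f, x v = x a + x b + x c := by
  classical
  have : f = ({a, b, c} : Finset V) := by
    ext v; rw [face_mem hf h1 h2 h3 ha hb hc]; simp
  rw [this, Finset.sum_insert (by simp [h1, h2]), Finset.sum_pair h3, add_assoc]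

theorem third {f : Finset V} (hf : f ∈ T.faces) (a b : V) : ∃ c ∈ f, c ≠ a ∧ c ≠ b := by
  classical
  by_contra h
  push Not at h
  have : f ⊆ {a, b} := fun c hc => by
    by_cases e : c = a
    · simp [e]
    · simp [h c hc e]
  have h1 := Finset.card_le_card this
  have h2 : ({a, b} : Finset V).card ≤ 2 := Finset.card_le_two
  rw [T.card_face f hf] at h1
  omega

theorem exists_tri {a b : V} (h : T.G.Adj a b) : ∃ c, T.Tri a b c := by
  obtain ⟨h1, f, hf, ha, hb⟩ := (T.adj_iff a b).1 h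
  obtain ⟨c, hc, k1, k2⟩ := third hf a b
  exact ⟨c, h1, k1.symm, k2.symm, f, hf, ha, hb, hc⟩

theorem page_sub {a b c : V} (h : T.Tri a b c) : Page a b c ⊆ realization T.faces := by
  obtain ⟨h1, h2, h3, f, hf, ha, hb, hc⟩ := h
  rintro x ⟨k1, k2, k3⟩
  refine ⟨f, hf, k1, fun v hv => ?_, by rw [face_sum hf h1 h2 h3 ha hb hc, k3]⟩
  rw [face_mem hf h1 h2 h3 ha hb hc] at hv
  push Not at hv
  exact k2 v hv.1 hv.2.1 hv.2.2

theorem mem_page {x : V → ℝ} (hx : x ∈ realization T.faces) {a b : V} (h1 : a ≠ b)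
    (ha : 0 < x a) (hb : 0 < x b) : ∃ c, T.Tri a b c ∧ x ∈ Page a b c := by
  obtain ⟨f, hf, k1, k2, k3⟩ := hx
  have ha' : a ∈ f := by by_contra e; exact ha.ne' (k2 a e)
  have hb' : b ∈ f := by by_contra e; exact hb.ne' (k2 b e)
  obtain ⟨c, hc, e1, e2⟩ := third hf a b
  refine ⟨c, ⟨h1, e1.symm, e2.symm, f, hf, ha', hb', hc⟩, k1, fun v v1 v2 v3 => k2 v ?_, ?_⟩
  · rw [face_mem hf h1 e1.symm e2.symm ha' hb' hc]; tauto
  · rw [← face_sum hf h1 e1.symm e2.symm ha' hb' hc, k3]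

theorem sx_of_pos {x : V → ℝ} (hx : x ∈ realization T.faces) {a b c : V}
    (ha : 0 < x a) (hb : 0 < x b) (hc : 0 < x c) : T.Sx a b c := by
  obtain ⟨f, hf, -, k2, -⟩ := hx
  refine ⟨f, hf, ?_, ?_, ?_⟩
  · by_contra e; exact ha.ne' (k2 a e)
  · by_contra e; exact hb.ne' (k2 b e)
  · by_contra e; exact hc.ne' (k2 c e)

theorem convex_page (a b c : V) : Convex ℝ (Page a b c) := by
  rintro x ⟨h1, h2, h3⟩ y ⟨k1, k2, k3⟩ s t hs ht hst
  refine ⟨fun v => ?_, fun v v1 v2 v3 => ?_, ?_⟩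
  · simp only [Pi.add_apply, Pi.smul_apply, smul_eq_mul]
    exact add_nonneg (mul_nonneg hs (h1 v)) (mul_nonneg ht (k1 v))
  · simp [h2 v v1 v2 v3, k2 v v1 v2 v3]
  · simp only [Pi.add_apply, Pi.smul_apply, smul_eq_mul]
    linear_combination s * h3 + t * k3 + hst

theorem closed_page (a b c : V) : IsClosed (Page a b c) := by
  have : Page a b c = (⋂ v, {x : V → ℝ | 0 ≤ x v}) ∩
      ((⋂ v, ⋂ (_ : v ≠ a), ⋂ (_ : v ≠ b), ⋂ (_ : v ≠ c), {x : V → ℝ | x v = 0}) ∩
        {x | x a + x b + x c = 1}) := by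
    ext x; simp [Page]
  rw [this]
  refine (isClosed_iInter fun v => isClosed_le continuous_const (continuous_apply v)).inter
    (IsClosed.inter (isClosed_iInter fun v => isClosed_iInter fun _ => isClosed_iInter fun _ =>
      isClosed_iInter fun _ => isClosed_eq (continuous_apply v) continuous_const)
      (isClosed_eq (by fun_prop) continuous_const))

theorem dl1 {a b c : V} (h : T.Tri a b c) : dl a ∈ Page a b c :=
  ⟨dl_nonneg a, fun _ h1 _ _ => dl_ne h1, by simp [dl_ne h.1.symm, dl_ne h.2.1.symm]⟩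

theorem dl2 {a b c : V} (h : T.Tri a b c) : dl b ∈ Page a b c :=
  ⟨dl_nonneg b, fun _ _ h1 _ => dl_ne h1, by simp [dl_ne h.1, dl_ne h.2.2.1.symm]⟩

theorem dl3 {a b c : V} (h : T.Tri a b c) : dl c ∈ Page a b c :=
  ⟨dl_nonneg c, fun _ _ _ h1 => dl_ne h1, by simp [dl_ne h.2.1, dl_ne h.2.2.1]⟩

variable (T)

/-- barycentric coordinates `β` of the points of the plane, and the inverse map `H` -/
structure Co (β : ℂ → V → ℝ) (H : (V → ℝ) → ℂ) : Prop where
  cβ : Continuous β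
  cH : ContinuousOn H (realization T.faces)
  mem : ∀ z, β z ∈ realization T.faces
  l : ∀ z, H (β z) = z
  r : ∀ x ∈ realization T.faces, β (H x) = x

theorem exists_co : ∃ β H, T.Co β H := by
  classical
  let e : realization T.faces ≃ₜ ℂ :=
    T.emb.trans Complex.orthonormalBasisOneI.repr.symm.toHomeomorph
  refine ⟨fun z => e.symm z, fun x => if h : x ∈ realization T.faces then e ⟨x, h⟩ else 0,
    by fun_prop, ?_, fun z => (e.symm z).2, fun z => ?_, fun x hx => ?_⟩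
  · rw [continuousOn_iff_continuous_domRestrict]
    refine e.continuous.congr fun z => ?_
    simp only [domRestrict_apply, dif_pos z.2]
  · simp only [dif_pos (e.symm z).2, Subtype.coe_eta, Homeomorph.apply_symm_apply]
  · simp only [dif_pos hx, Homeomorph.symm_apply_apply]

variable {T} {β : ℂ → V → ℝ} {H : (V → ℝ) → ℂ}

theorem Co.inj (h : T.Co β H) {x y : V → ℝ} (hx : x ∈ realization T.faces)
    (hy : y ∈ realization T.faces) (e : H x = H y) : x = y := by
  rw [← h.r x hx, e, h.r y hy]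

theorem Co.near (h : T.Co β H) {p q : V → ℝ}
    (hs : ∀ t ∈ Icc (0 : ℝ) 1, (1 - t) • p + t • q ∈ realization T.faces) {r : ℝ} (hr : 0 < r) :
    ∃ t ∈ Ioc (0 : ℝ) 1, H ((1 - t) • p + t • q) ∈ ball (H p) r := by
  have hc : ContinuousOn (fun t : ℝ => H ((1 - t) • p + t • q)) (Icc 0 1) :=
    h.cH.comp (by fun_prop) hs
  obtain ⟨d, hd, k⟩ := Metric.continuousOn_iff.1 hc 0 ⟨le_rfl, zero_le_one⟩ r hr
  have h0 : 0 < min (d / 2) 1 := lt_min (half_pos hd) one_pos
  refine ⟨min (d / 2) 1, ⟨h0, min_le_right _ _⟩, ?_⟩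
  have := k _ ⟨h0.le, min_le_right _ _⟩ (by
    rw [Real.dist_eq, sub_zero, abs_of_pos h0]
    exact (min_le_left _ _).trans_lt (half_lt_self hd))
  simpa using this

/-- links are connected -/
theorem link {v a b : V} (ha : T.G.Adj v a) (hb : T.G.Adj v b) :
    Relation.ReflTransGen (T.Tri v) a b := by
  obtain ⟨β, H, h⟩ := T.exists_co
  by_contra hn
  set A := {x | Relation.ReflTransGen (T.Tri v) a x} with hA
  have hAv : ∀ x ∈ A, x ≠ v := fun x hx => by
    have hx : Relation.ReflTransGen (T.Tri v) a x := hx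
    induction hx with
    | refl => exact ha.ne'
    | tail _ h2 _ => exact h2.2.1.symm
  obtain ⟨c, hc⟩ := exists_tri ha
  have hv : dl v ∈ realization T.faces := page_sub hc (dl1 hc)
  have hop : ∀ x, IsOpen {z | 0 < β z x} := fun x =>
    isOpen_lt continuous_const ((continuous_apply x).comp h.cβ)
  obtain ⟨r, hr, hB⟩ := Metric.isOpen_iff.1 (hop v) (H (dl v))
    (by simp only [mem_ofPred_eq, h.r _ hv, dl_self, one_pos])
  have hnear : ∀ x, T.G.Adj v x → ∃ z ∈ ball (H (dl v)) r \ {H (dl v)}, 0 < β z x := fun x hx => by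
    obtain ⟨c, hc⟩ := exists_tri hx
    have hs : ∀ t ∈ Icc (0 : ℝ) 1, (1 - t) • dl v + t • dl x ∈ realization T.faces :=
      fun t ht => page_sub hc (convex_page _ _ _ (dl1 hc) (dl2 hc) (by linarith [ht.2]) ht.1
        (by ring))
    obtain ⟨t, ht, k⟩ := h.near hs hr
    have e : β (H ((1 - t) • dl v + t • dl x)) x = t := by
      rw [h.r _ (hs t ⟨ht.1.le, ht.2⟩)]; simp [dl_ne hx.ne']
    refine ⟨_, ⟨k, fun e' => ?_⟩, by rw [e]; exact ht.1⟩
    rw [mem_singleton_iff.1 e', h.r _ hv, dl_ne hx.ne'] at e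
    exact ht.1.ne e
  obtain ⟨z, hz, h1, h2⟩ := punct_ball (H (dl v)) r (⋃ x ∈ A, {z | 0 < β z x})
    (⋃ x ∈ {x | x ∉ A ∧ x ≠ v}, {z | 0 < β z x}) (isOpen_biUnion fun x _ => hop x)
    (isOpen_biUnion fun x _ => hop x)
    (fun z hz => by
      have : ∃ x, x ≠ v ∧ 0 < β z x := by
        by_contra hn'
        push Not at hn'
        obtain ⟨f, hf, k1, k2, k3⟩ := h.mem z
        have k4 : ∀ x, x ≠ v → β z x = 0 := fun x hx => le_antisymm (hn' x hx) (k1 x)
        have hvf : v ∈ f := by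
          by_contra e; exact (show 0 < β z v from hB hz.1).ne' (k2 v e)
        rw [Finset.sum_eq_single_of_mem v hvf fun x _ hx => k4 x hx] at k3
        refine hz.2 ?_
        have : β z = dl v := funext fun x => by
          by_cases e : x = v
          · rw [e, k3, dl_self]
          · rw [k4 x e, dl_ne e]
        rw [← this, h.l]; rfl
      obtain ⟨x, hx, hx'⟩ := this
      by_cases e : x ∈ A
      · exact Or.inl (mem_biUnion e hx')
      · exact Or.inr (mem_biUnion (show x ∈ {x | x ∉ A ∧ x ≠ v} from ⟨e, hx⟩) hx'))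
    (by
      obtain ⟨z, hz, k⟩ := hnear a ha
      exact ⟨z, hz, mem_biUnion (show a ∈ A from Relation.ReflTransGen.refl) k⟩)
    (by
      obtain ⟨z, hz, k⟩ := hnear b hb
      exact ⟨z, hz, mem_biUnion (show b ∈ {x | x ∉ A ∧ x ≠ v} from ⟨hn, hb.ne'⟩) k⟩)
  obtain ⟨x, hx, kx⟩ := mem_iUnion₂.1 h1
  obtain ⟨y, hy, ky⟩ := mem_iUnion₂.1 h2
  refine hy.1 (Relation.ReflTransGen.tail hx ⟨(hAv x hx).symm, hy.2.symm, ?_,
    sx_of_pos (h.mem z) (hB hz.1) kx ky⟩)
  rintro rfl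
  exact hy.1 hx

end EmbTri

end Pool.Agent.P.MP_e4ac67_pr
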