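import Pool.Agent.P.MP_e4ac67_pr.Emb.Top

/-! Every edge of a triangulation of the plane lies on exactly two faces. -/

namespace Pool.Agent.P.MP_e4ac67_pr

open Set Metric Topology Emb

namespace EmbTri

variable {V : Type} {T : EmbTri V} {β : ℂ → V → ℝ} {H : (V → ℝ) → ℂ}

/-- the midpoint of an edge -/
noncomputable def mid (a b : V) : V → ℝ := (1 / 2 : ℝ) • dl a + (1 / 2 : ℝ) • dl b

theorem mid_mem {a b c : V} (h : T.Tri a b c) : mid a b ∈ Page a b c :=
  convex_page _ _ _ (dl1 h) (dl2 h) (by norm_num) (by norm_num) (by norm_num)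

theorem mid1 {a b : V} (h : a ≠ b) : mid a b a = 1 / 2 := by simp [mid, dl_ne h]

theorem mid2 {a b : V} (h : a ≠ b) : mid a b b = 1 / 2 := by simp [mid, dl_ne h.symm]

theorem mid3 {a b c : V} (h1 : c ≠ a) (h2 : c ≠ b) : mid a b c = 0 := by
  simp [mid, dl_ne h1, dl_ne h2]

theorem star_page {a b c : V} (h : T.Tri a b c) :
    StarConvex ℝ (dl c) (Page a b c \ {mid a b}) := by
  rintro y ⟨hy, hy'⟩ s t hs ht hst
  refine ⟨convex_page _ _ _ (dl3 h) hy hs ht hst, fun e => hy' ?_⟩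
  have e' : s • dl c + t • y = mid a b := e
  have e1 := congrFun e' c
  simp only [Pi.add_apply, Pi.smul_apply, smul_eq_mul, dl_self, mul_one,
    mid3 h.2.1.symm h.2.2.1.symm] at e1
  have hs0 : s = 0 := le_antisymm (by nlinarith [mul_nonneg ht (hy.1 c)]) hs
  have ht1 : t = 1 := by linarith
  rw [hs0, ht1] at e'
  simpa using e'

theorem dl1' {a b c : V} (h : T.Tri a b c) : dl a ∈ Page a b c \ {mid a b} :=
  ⟨dl1 h, fun e => by
    have := congrFun (mem_singleton_iff.1 e) a
    rw [dl_self, mid1 h.1] at this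
    norm_num at this⟩

theorem dl2' {a b c : V} (h : T.Tri a b c) : dl b ∈ Page a b c \ {mid a b} :=
  ⟨dl2 h, fun e => by
    have := congrFun (mem_singleton_iff.1 e) b
    rw [dl_self, mid2 h.1] at this
    norm_num at this⟩

theorem dl3' {a b c : V} (h : T.Tri a b c) : dl c ∈ Page a b c \ {mid a b} :=
  ⟨dl3 h, fun e => by
    have := congrFun (mem_singleton_iff.1 e) c
    rw [dl_self, mid3 h.2.1.symm h.2.2.1.symm] at this
    norm_num at this⟩

theorem Co.page_log (h : T.Co β H) {a b c : V} (hc : T.Tri a b c) :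
    ∃ L : (V → ℝ) → ℂ, ContinuousOn L (Page a b c \ {mid a b}) ∧
      (∀ x ∈ Page a b c \ {mid a b}, Complex.exp (L x) = H x - H (mid a b)) ∧
      L (dl a) = Complex.log (H (dl a) - H (mid a b)) := by
  have h0 : ∀ x ∈ Page a b c \ {mid a b}, H x - H (mid a b) ≠ 0 := fun x hx e =>
    hx.2 (h.inj (page_sub hc hx.1) (page_sub hc (mid_mem hc)) (sub_eq_zero.1 e))
  obtain ⟨L, k1, k2⟩ := log_star (dl3' hc) (star_page hc) (g := fun x => H x - H (mid a b))
    ((h.cH.mono fun x hx => page_sub hc hx.1).sub continuousOn_const) h0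
  refine ⟨fun x => L x - L (dl a) + Complex.log (H (dl a) - H (mid a b)),
    (k1.sub continuousOn_const).add continuousOn_const, fun x hx => ?_, by simp⟩
  rw [Complex.exp_add, Complex.exp_sub, k2 x hx, k2 _ (dl1' hc), Complex.exp_log (h0 _ (dl1' hc)),
    div_mul_cancel₀ _ (h0 _ (dl1' hc))]

/-- with a third face on the edge, the union of two faces carries a logarithm -/
theorem Co.three (h : T.Co β H) {a b c d e : V} (hc : T.Tri a b c) (hd : T.Tri a b d)
    (he : T.Tri a b e) (h1 : e ≠ c) (h2 : e ≠ d) :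
    ∃ L : (V → ℝ) → ℂ, ContinuousOn L ((Page a b c ∪ Page a b d) \ {mid a b}) ∧
      ∀ x ∈ (Page a b c ∪ Page a b d) \ {mid a b}, Complex.exp (L x) = H x - H (mid a b) := by
  let W : Set (ℝ × (V → ℝ)) := {p | p.1 ∈ Icc (0 : ℝ) 1 ∧ p.2 ∈ Page a b c ∪ Page a b d ∧
    ¬ (p.1 = 0 ∧ p.2 = mid a b)}
  let y : ℝ → V → ℝ := fun t => (1 - t) • mid a b + t • dl e
  have hy : ∀ t ∈ Icc (0 : ℝ) 1, y t ∈ realization T.faces := fun t ht =>
    page_sub he (convex_page _ _ _ (mid_mem he) (dl3 he) (by linarith [ht.2]) ht.1 (by ring))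
  have hD : Page a b c ∪ Page a b d ⊆ realization T.faces :=
    union_subset (page_sub hc) (page_sub hd)
  have hW : StarConvex ℝ ((1 : ℝ), mid a b) W := by
    rintro ⟨u, x⟩ ⟨⟨k1, k1'⟩, k2, k3⟩ s t hs ht hst
    simp only [W, Prod.smul_mk, Prod.mk_add_mk, smul_eq_mul, mul_one, mem_ofPred_eq] at *
    refine ⟨⟨by positivity, by nlinarith⟩, ?_, fun k => k3 ?_⟩
    · exact k2.imp (fun k => convex_page _ _ _ (mid_mem hc) k hs ht hst)
        fun k => convex_page _ _ _ (mid_mem hd) k hs ht hst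
    · have hs0 : s = 0 := le_antisymm (by nlinarith [mul_nonneg ht k1, k.1]) hs
      have ht1 : t = 1 := by linarith
      rw [hs0, ht1] at k
      simpa using k
  obtain ⟨L, k1, k2⟩ := log_star (p := ((1 : ℝ), mid a b)) (S := W)
    ⟨⟨zero_le_one, le_rfl⟩, Or.inl (mid_mem hc), fun k => one_ne_zero k.1⟩ hW
    (g := fun p => H p.2 - H (y p.1))
    ((h.cH.comp continuousOn_snd fun p hp => hD hp.2.1).sub
      (h.cH.comp (by fun_prop) fun p hp => hy _ hp.1))
    (fun p hp k => by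
      have k := h.inj (hD hp.2.1) (hy _ hp.1) (sub_eq_zero.1 k)
      have k0 : p.2 e = 0 := hp.2.1.elim (fun q => q.2.1 e he.2.1.symm he.2.2.1.symm h1)
        fun q => q.2.1 e he.2.1.symm he.2.2.1.symm h2
      have k1 : p.1 = 0 := by
        rw [k] at k0
        simpa [y, mid3 he.2.1.symm he.2.2.1.symm] using k0
      exact hp.2.2 ⟨k1, by rw [k, k1]; simp [y]⟩)
  have hm : ∀ x ∈ (Page a b c ∪ Page a b d) \ {mid a b}, ((0 : ℝ), x) ∈ W := fun x hx =>
    ⟨⟨le_rfl, zero_le_one⟩, hx.1, fun k => hx.2 k.2⟩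
  refine ⟨fun x => L (0, x), k1.comp (by fun_prop) hm, fun x hx => ?_⟩
  rw [k2 _ (hm x hx)]
  simp [y]

theorem two {a b : V} (hab : T.G.Adj a b) :
    ∃ c d, c ≠ d ∧ T.Tri a b c ∧ T.Tri a b d ∧ ∀ e, T.Tri a b e → e = c ∨ e = d := by
  classical
  obtain ⟨β, H, h⟩ := T.exists_co
  let P := {c // T.Tri a b c}
  have : Finite P := ((T.locFin a).subset fun c (hc : T.Tri a b c) => hc.s23.adj).to_subtype
  choose L L1 L2 L3 using fun c : P => h.page_log c.2
  have hA : ∃ c d : P, L c (dl b) ≠ L d (dl b) := by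
    by_contra hn
    push Not at hn
    have hag : ∀ c d : P, ∀ x ∈ Page a b c.1 \ {mid a b}, x ∈ Page a b d.1 → L c x = L d x := by
      intro c d x hx hx'
      by_cases e : c = d
      · rw [e]
      have e' : c.1 ≠ d.1 := fun k => e (Subtype.ext k)
      have key : ∀ (S : Set (V → ℝ)) (p : V → ℝ), Convex ℝ S → mid a b ∉ S → x ∈ S → p ∈ S →
          p ∈ Page a b c.1 → p ∈ Page a b d.1 → L c p = L d p → L c x = L d x := by
        intro S p s1 s2 s3 s4 s5 s6 s7
        have m1 : Page a b c.1 ∩ Page a b d.1 ∩ S ⊆ Page a b c.1 \ {mid a b} := fun z hz =>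
          ⟨hz.1.1, fun k => s2 (mem_singleton_iff.1 k ▸ hz.2)⟩
        have m2 : Page a b c.1 ∩ Page a b d.1 ∩ S ⊆ Page a b d.1 \ {mid a b} := fun z hz =>
          ⟨hz.1.2, fun k => s2 (mem_singleton_iff.1 k ▸ hz.2)⟩
        have := log_const (((convex_page a b c.1).inter (convex_page a b d.1)).inter
          s1).isPreconnected ((L1 c).mono m1) ((L1 d).mono m2)
          (fun z hz => by rw [L2 c z (m1 hz), L2 d z (m2 hz)]) ⟨⟨hx.1, hx'⟩, s3⟩ ⟨⟨s5, s6⟩, s4⟩
        rw [s7, sub_self] at this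
        exact sub_eq_zero.1 this
      have hl : IsLinearMap ℝ fun z : V → ℝ => z a := ⟨fun _ _ => rfl, fun _ _ => rfl⟩
      rcases lt_trichotomy (x a) (1 / 2) with k | k | k
      · exact key {z | z a < 1 / 2} (dl b) (convex_halfSpace_lt hl _)
          (by simp [mid1 hab.ne]) k (by simp [dl_ne hab.ne]) (dl2 c.2) (dl2 d.2) (hn c d)
      · refine (hx.2 (funext fun v => ?_)).elim
        have xc : x c.1 = 0 := hx'.2.1 _ c.2.2.1.symm c.2.2.2.1.symm e'
        have xb : x b = 1 / 2 := by linarith [hx.1.2.2]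
        by_cases v1 : v = a
        · rw [v1, k, mid1 hab.ne]
        by_cases v2 : v = b
        · rw [v2, xb, mid2 hab.ne]
        rw [mid3 v1 v2]
        by_cases v3 : v = c.1
        · rw [v3, xc]
        · exact hx.1.2.1 v v1 v2 v3
      · exact key {z | 1 / 2 < z a} (dl a) (convex_halfSpace_gt hl _)
          (by simp [mid1 hab.ne]) k (by simp only [mem_ofPred_eq, dl_self]; norm_num)
          (dl1 c.2) (dl1 d.2) (by rw [L3, L3])
    obtain ⟨c0, hc0⟩ := exists_tri hab
    have hm : mid a b ∈ realization T.faces := page_sub hc0 (mid_mem hc0)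
    have hop : IsOpen {z | 0 < β z a ∧ 0 < β z b} :=
      (isOpen_lt continuous_const ((continuous_apply a).comp h.cβ)).inter
        (isOpen_lt continuous_const ((continuous_apply b).comp h.cβ))
    obtain ⟨r, hr, hB⟩ := Metric.isOpen_iff.1 hop (H (mid a b))
      (by simp [h.r _ hm, mid1 hab.ne, mid2 hab.ne])
    have hS : ∀ z ∈ sphere (H (mid a b)) (r / 2), ∃ c : P, β z ∈ Page a b c.1 \ {mid a b} := by
      intro z hz
      have k := hB (sphere_subset_ball (half_lt_self hr) hz)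
      obtain ⟨c, hc, k'⟩ := mem_page (h.mem z) hab.ne k.1 k.2
      refine ⟨⟨c, hc⟩, k', fun e => ?_⟩
      rw [← mem_singleton_iff.1 e, h.l, mem_sphere, dist_self] at hz
      linarith
    have : Nonempty P := ⟨⟨c0, hc0⟩⟩
    choose! c hc using hS
    refine no_log (p := H (mid a b)) (half_pos hr) (L := fun z => L (c z) (β z)) ?_ fun z hz => ?_
    · have hU : sphere (H (mid a b)) (r / 2) =
          ⋃ d : P, sphere (H (mid a b)) (r / 2) ∩ β ⁻¹' Page a b d.1 := by
        ext z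
        simp only [mem_iUnion]
        exact ⟨fun hz => ⟨c z, hz, (hc z hz).1⟩, fun ⟨_, hz⟩ => hz.1⟩
      rw [hU]
      refine (locallyFinite_of_finite _).continuousOn_iUnion
        (fun d => isClosed_sphere.inter ((closed_page _ _ _).preimage h.cβ)) fun d => ?_
      refine ((L1 d).comp h.cβ.continuousOn fun z hz => ⟨hz.2, (hc z hz.1).2⟩).congr
        fun z hz => hag _ d _ (hc z hz.1) hz.2
    · rw [L2 _ _ (hc z hz), h.l]
  obtain ⟨c, d, hcd⟩ := hA
  refine ⟨c.1, d.1, fun e => hcd (by rw [Subtype.ext e]), c.2, d.2, fun e he => ?_⟩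
  by_contra hn
  push Not at hn
  obtain ⟨M, M1, M2⟩ := h.three c.2 d.2 he hn.1 hn.2
  have key : ∀ c' : P, Page a b c'.1 ⊆ Page a b c.1 ∪ Page a b d.1 →
      L c' (dl b) - M (dl b) = L c' (dl a) - M (dl a) := fun c' k =>
    log_const ((star_page c'.2).isPathConnected (dl3' c'.2)).isConnected.isPreconnected (L1 c')
      (M1.mono (sdiff_subset_sdiff_left k))
      (fun z hz => by rw [L2 c' z hz, M2 z (sdiff_subset_sdiff_left k hz)]) (dl2' c'.2) (dl1' c'.2)
  have k1 := key c subset_union_left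
  have k2 := key d subset_union_right
  rw [L3] at k1 k2
  exact hcd (by linear_combination k1 - k2)

end EmbTri

end Pool.Agent.P.MP_e4ac67_pr
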